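import Pool.Agent.Helper38.MS.Defs

/-!
# Block MS6b: peeling a full class of blocks, orbits on the colourings
-/

set_option autoImplicit false

namespace Pool.Agent.Helper38.MS

open FirstOrder Pool.Agent.Helper20.Spectra Pool.Agent.Helper31.QD Pool.Agent.Helper38.MC
  Pool.Agent.Helper58.QD Pool.Agent.Helper40.MC Pool.Agent.Helper6.MC Pool.Agent.Helper6.EA

/-- equal multisets of values: the functions differ by a permutation -/
theorem perm_of_map58 {ι β : Type} [Fintype ι] (F F' : ι → β)
    (h : (Finset.univ : Finset ι).val.map F = (Finset.univ : Finset ι).val.map F') :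
    ∃ π : Equiv.Perm ι, ∀ i, F' i = F (π i) := by
  classical
  have hc : ∀ q, Fintype.card {i // F' i = q} = Fintype.card {i // F i = q} := by
    intro q
    have h1 := congrArg (Multiset.count q) h
    rw [Multiset.count_map, Multiset.count_map] at h1
    rw [Fintype.card_subtype, Fintype.card_subtype]
    have e1 : (Finset.univ.filter (fun i => F i = q)).card = Multiset.card ((Finset.univ : Finset ι).val.filter (fun a => q = F a)) := by
      rw [Finset.card_def, Finset.filter_val]
      congr 1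
      apply Multiset.filter_congr
      intro x _
      exact eq_comm
    have e2 : (Finset.univ.filter (fun i => F' i = q)).card = Multiset.card ((Finset.univ : Finset ι).val.filter (fun a => q = F' a)) := by
      rw [Finset.card_def, Finset.filter_val]
      congr 1
      apply Multiset.filter_congr
      intro x _
      exact eq_comm
    rw [e1, e2, h1]
  let e : ∀ q, {i // F' i = q} ≃ {i // F i = q} := fun q => Fintype.equivOfCardEq (hc q)
  refine ⟨(Equiv.sigmaFiberEquiv F').symm.trans ((Equiv.sigmaCongrRight e).trans (Equiv.sigmaFiberEquiv F)), fun i => ?_⟩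
  exact (e (F' i) ⟨i, rfl⟩).2.symm

section

variable {V : Type}

/-- the permutations inside of the blocks -/
theorem blocks_mem58 (G : Subgroup (Equiv.Perm V)) {D t : ℕ} (u : Fin D × Fin t → V) (hu : Function.Injective u)
    (hperm : ∀ (π : Equiv.Perm (Fin D)) (σ : Equiv.Perm V), (∀ i x, σ (u (i, x)) = u (π i, x)) →
      (∀ z, (∀ p, u p ≠ z) → σ z = z) → σ ∈ G)
    (i₀ : Fin D) (hu₀ : Function.Injective (fun x => u (i₀, x))) (γ : Equiv.Perm (Fin t))
    (hγ : γ ∈ res G (fun x => u (i₀, x)) hu₀) (i : Fin D) (σ : Equiv.Perm V) (h1 : ∀ x, σ (u (i, x)) = u (i, γ x))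
    (h2 : ∀ z, (∀ x, u (i, x) ≠ z) → σ z = z) : σ ∈ G := by
  classical
  obtain ⟨s, hs1, hs2⟩ := exists_ext hu ((Equiv.swap i₀ i).prodCongr (Equiv.refl (Fin t)))
  have hs1' : ∀ j x, s (u (j, x)) = u (Equiv.swap i₀ i j, x) := fun j x => hs1 (j, x)
  have hs : s ∈ G := hperm (Equiv.swap i₀ i) s hs1' hs2
  have hss : ∀ z, s (s z) = z := by
    intro z
    by_cases hz : ∃ p, u p = z
    · obtain ⟨⟨j, x⟩, rfl⟩ := hz
      rw [hs1', hs1', Equiv.swap_apply_self]
    · push Not at hz
      rw [hs2 z hz, hs2 z hz]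
  have h3 : s * σ * s ∈ G := by
    refine (mem_res.1 hγ) _ ?_ ?_
    · intro x
      show s (σ (s (u (i₀, x)))) = u (i₀, γ x)
      rw [hs1', Equiv.swap_apply_left, h1, hs1', Equiv.swap_apply_right]
    · intro z hz
      show s (σ (s z)) = z
      rw [h2 (s z), hss]
      intro x hx
      have h4 := congrArg s hx
      rw [hss, hs1', Equiv.swap_apply_right] at h4
      exact hz x h4
  have h5 : σ = s * (s * σ * s) * s := by
    ext z
    show σ z = s (s (σ (s (s z))))
    rw [hss, hss]
  rw [h5]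
  exact G.mul_mem (G.mul_mem hs h3) hs

/-- all block permutations, with permutations inside of the blocks -/
theorem wreath_mem58 (G : Subgroup (Equiv.Perm V)) {D t : ℕ} (u : Fin D × Fin t → V) (hu : Function.Injective u)
    (hperm : ∀ (π : Equiv.Perm (Fin D)) (σ : Equiv.Perm V), (∀ i x, σ (u (i, x)) = u (π i, x)) →
      (∀ z, (∀ p, u p ≠ z) → σ z = z) → σ ∈ G)
    (i₀ : Fin D) (hu₀ : Function.Injective (fun x => u (i₀, x))) (π : Equiv.Perm (Fin D)) (γ : Fin D → Equiv.Perm (Fin t))
    (hγ : ∀ i, γ i ∈ res G (fun x => u (i₀, x)) hu₀) :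
    ∃ σ ∈ G, (∀ i x, σ (u (i, x)) = u (π i, γ i x)) ∧ ∀ z, (∀ p, u p ≠ z) → σ z = z := by
  classical
  have hin : ∀ s : Finset (Fin D), ∃ σ ∈ G, (∀ i ∈ s, ∀ x, σ (u (i, x)) = u (i, γ i x)) ∧
      (∀ i ∉ s, ∀ x, σ (u (i, x)) = u (i, x)) ∧ ∀ z, (∀ p, u p ≠ z) → σ z = z := by
    intro s
    induction s using Finset.induction_on with
    | empty => exact ⟨1, G.one_mem, fun i hi => absurd hi (Finset.notMem_empty i), fun _ _ _ => rfl, fun _ _ => rfl⟩
    | insert i s hi ih =>
      obtain ⟨σ, hσ, h1, h2, h3⟩ := ih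
      have hui : Function.Injective (fun x => u (i, x)) := fun x y hxy => (Prod.mk.injEq _ _ _ _ ▸ hu hxy : _ ∧ _).2
      obtain ⟨τ, hτ1, hτ2⟩ := exists_ext hui (γ i)
      have hτ : τ ∈ G := blocks_mem58 G u hu hperm i₀ hu₀ (γ i) (hγ i) i τ hτ1 hτ2
      have hτ3 : ∀ j, j ≠ i → ∀ x, τ (u (j, x)) = u (j, x) := by
        intro j hj x
        apply hτ2
        intro y hy
        have := hu hy
        exact hj (congrArg Prod.fst this).symm
      refine ⟨τ * σ, G.mul_mem hτ hσ, ?_, ?_, ?_⟩
      · intro j hj x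
        show τ (σ (u (j, x))) = _
        by_cases hji : j = i
        · subst hji
          rw [h2 j hi]
          exact hτ1 x
        · rw [h1 j ((Finset.mem_insert.1 hj).resolve_left hji), hτ3 j hji]
      · intro j hj x
        show τ (σ (u (j, x))) = _
        have hji : j ≠ i := fun h => hj (h ▸ Finset.mem_insert_self _ _)
        rw [h2 j (fun h => hj (Finset.mem_insert_of_mem h)), hτ3 j hji]
      · intro z hz
        show τ (σ z) = z
        rw [h3 z hz, hτ2 z (fun x => hz (i, x))]
  obtain ⟨σ, hσ, h1, _, h3⟩ := hin Finset.univ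
  obtain ⟨s, hs1, hs2⟩ := exists_ext hu (π.prodCongr (Equiv.refl (Fin t)))
  have hs1' : ∀ j x, s (u (j, x)) = u (π j, x) := fun j x => hs1 (j, x)
  have hs : s ∈ G := hperm π s hs1' hs2
  refine ⟨s * σ, G.mul_mem hs hσ, ?_, ?_⟩
  · intro i x
    show s (σ (u (i, x))) = _
    rw [h1 i (Finset.mem_univ i), hs1']
  · intro z hz
    show s (σ z) = z
    rw [h3 z hz, hs2 z hz]

variable [Fintype V]

open Classical in
/-- MS6b: peeling a family, orbits on the colourings -/
theorem peel_oc (c : ℕ) (G : Subgroup (Equiv.Perm V)) (A : Finset V) {D t : ℕ} (u : Fin D × Fin t → V) (hu : Function.Injective u)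
    (hA : ∀ p, u p ∉ A)
    (hperm : ∀ (π : Equiv.Perm (Fin D)) (σ : Equiv.Perm V), (∀ i x, σ (u (i, x)) = u (π i, x)) →
      (∀ z, (∀ p, u p ≠ z) → σ z = z) → σ ∈ G)
    (i₀ : Fin D) (hu₀ : Function.Injective (fun x => u (i₀, x))) :
    ocA c G A ≤ Nat.multichoose (oc c (res G (fun x => u (i₀, x)) hu₀)) D * ocA c G (A ∪ Finset.univ.image u) := by
  set Γ := res G (fun x => u (i₀, x)) hu₀ with hΓ
  have hfin1 : Finite (Quotient (ocS c Γ)) := inferInstance
  have hfin2 : Finite (Quotient (ocSA c G (A ∪ Finset.univ.image u))) := inferInstance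
  have hQ₁ : Fintype (Quotient (ocS c Γ)) := Fintype.ofFinite _
  -- the mask
  let mk : {f : V → Fin c → Bool // ∀ a ∈ A, f a = fun _ => false} →
      {f : V → Fin c → Bool // ∀ a ∈ A ∪ Finset.univ.image u, f a = fun _ => false} := fun f =>
    ⟨fun z => if z ∈ A ∪ Finset.univ.image u then fun _ => false else f.1 z, fun a ha => by simp only [if_pos ha]⟩
  let Φ : {f : V → Fin c → Bool // ∀ a ∈ A, f a = fun _ => false} →
      Sym (Quotient (ocS c Γ)) D × Quotient (ocSA c G (A ∪ Finset.univ.image u)) := fun f =>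
    (⟨(Finset.univ : Finset (Fin D)).val.map (fun i => Quotient.mk (ocS c Γ) (fun x => f.1 (u (i, x)))), by simp⟩,
      Quotient.mk _ (mk f))
  have key : ∀ f f', Φ f = Φ f' → (ocSA c G A).r f f' := by
    intro f f' hff
    have h1 : (Finset.univ : Finset (Fin D)).val.map (fun i => Quotient.mk (ocS c Γ) (fun x => f.1 (u (i, x)))) =
        (Finset.univ : Finset (Fin D)).val.map (fun i => Quotient.mk (ocS c Γ) (fun x => f'.1 (u (i, x)))) :=
      congrArg (fun z : Sym (Quotient (ocS c Γ)) D × Quotient (ocSA c G (A ∪ Finset.univ.image u)) => z.1.1) hff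
    have h2 : Quotient.mk (ocSA c G (A ∪ Finset.univ.image u)) (mk f) = Quotient.mk _ (mk f') := congrArg Prod.snd hff
    obtain ⟨g, hg, hg2⟩ := Quotient.exact h2
    obtain ⟨hgG, hg1⟩ := mem_GS.1 hg
    obtain ⟨π, hπ⟩ := perm_of_map58 _ _ h1
    have h3 : ∀ i, ∃ γ ∈ Γ, (fun x => f'.1 (u (i, x))) = (fun x => f.1 (u (π i, x))) ∘ γ := fun i =>
      Quotient.exact (hπ i).symm
    choose γ hγ1 hγ2 using h3
    obtain ⟨σ, hσ, hσ1, hσ2⟩ := wreath_mem58 G u hu hperm i₀ hu₀ π γ hγ1
    have hout : ∀ z, z ∉ A ∪ Finset.univ.image u → g z ∉ A ∪ Finset.univ.image u := by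
      intro z hz hgz
      have h4 := hg1 _ hgz
      have h5 := g.injective h4
      rw [h5] at hgz
      exact hz hgz
    refine ⟨g * σ, mem_GS.2 ⟨G.mul_mem hgG hσ, fun x hx => ?_⟩, ?_⟩
    · have hx2 : ∀ p, u p ≠ x := by
        rintro p rfl
        exact hA p hx
      show g (σ x) = x
      rw [hσ2 x hx2]
      exact hg1 x (Finset.mem_union_left _ hx)
    · funext z
      show f'.1 z = f.1 (g (σ z))
      by_cases hz : ∃ p, u p = z
      · obtain ⟨⟨i, y⟩, rfl⟩ := hz
        rw [hσ1, hg1 _ (Finset.mem_union_right _ (Finset.mem_image_of_mem u (Finset.mem_univ _)))]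
        exact congrFun (hγ2 i) y
      · push Not at hz
        rw [hσ2 z hz]
        by_cases hzA : z ∈ A
        · rw [hg1 z (Finset.mem_union_left _ hzA), f.2 z hzA, f'.2 z hzA]
        · have hz2 : z ∉ A ∪ Finset.univ.image u := by
            intro h
            rcases Finset.mem_union.1 h with h | h
            · exact hzA h
            · obtain ⟨p, _, hp⟩ := Finset.mem_image.1 h
              exact hz p hp
          have h6 : (mk f').1 z = (mk f).1 (g z) := congrFun hg2 z
          have h7 : (mk f').1 z = f'.1 z := if_neg hz2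
          have h8 : (mk f).1 (g z) = f.1 (g z) := if_neg (hout z hz2)
          rw [← h7, ← h8]
          exact h6
  have hcard : ocA c G A ≤ Nat.card (Sym (Quotient (ocS c Γ)) D × Quotient (ocSA c G (A ∪ Finset.univ.image u))) := by
    refine Nat.card_le_card_of_injective (fun q : Quotient (ocSA c G A) => Φ q.out) ?_
    intro q q' hq
    have h3 := key _ _ hq
    rw [← Quotient.out_eq q, ← Quotient.out_eq q']
    exact Quotient.sound h3
  rw [Nat.card_prod] at hcard
  have e1 : Nat.card (Sym (Quotient (ocS c Γ)) D) = (oc c Γ).multichoose D := by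
    rw [Nat.card_eq_fintype_card, Sym.card_sym_eq_multichoose]
    unfold oc
    rw [Nat.card_eq_fintype_card]
  rw [e1] at hcard
  exact hcard

end

end Pool.Agent.Helper38.MS
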