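import Pool.Agent.Helper38.MS.Defs

/-!
# MS4a, MS4c: the relative structure
-/

set_option autoImplicit false

namespace Pool.Agent.Helper38.MS

open FirstOrder Pool.Agent.Helper20.Spectra Pool.Agent.Helper31.QD Pool.Agent.Helper38.MC
  Pool.Agent.Helper58.QD Pool.Agent.Helper40.MC Pool.Agent.Helper6.MC Pool.Agent.Helper6.EA

theorem mem_orb58 {U : Type} [Fintype U] {G : Subgroup (Equiv.Perm U)} {x y : U} : y ∈ orb G x ↔ ∃ σ ∈ G, σ x = y := by
  unfold orb
  simp

variable {S : Type} {ar : S → ℕ} {V : Type} [Fintype V]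

/-- MS4a: the automorphisms of the relative structure, and its families -/
theorem AuG_Rel {W : Type} (R : Interp S ar V) (w : W → V) (hw : Function.Injective w) : AuG (Rel R w) = res (AuG R) w hw := by
  classical
  ext γ
  constructor
  · intro hγ
    have hγ' : Au (Rel R w) γ := hγ
    refine mem_res.2 fun σ h1 h2 => ?_
    show Au R σ
    intro s v
    by_cases hW : Nonempty W
    · obtain ⟨x₀⟩ := hW
      obtain ⟨p, hp⟩ : ∃ p : Fin (ar s) → Option {a : V // a ∉ Set.range w}, ∀ i, (∃ x, w x = v i) → p i = none := by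
        refine ⟨fun i => if h : v i ∈ Set.range w then none else some ⟨v i, h⟩, fun i hi => dif_pos hi⟩
      let q : Fin (ar s) → Option {a : V // a ∉ Set.range w} := fun i =>
        if h : v i ∈ Set.range w then none else some ⟨v i, h⟩
      let y : Fin (ar s) → W := fun i => if h : v i ∈ Set.range w then h.choose else x₀
      have hy : ∀ i, v i ∈ Set.range w → w (y i) = v i := by
        intro i h
        show w (if h : v i ∈ Set.range w then h.choose else x₀) = v i
        rw [dif_pos h]
        exact h.choose_spec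
      have hq1 : ∀ i, v i ∈ Set.range w → q i = none := fun i h => dif_pos h
      have hq2 : ∀ i (h : v i ∉ Set.range w), q i = some ⟨v i, h⟩ := fun i h => dif_neg h
      have e1 : (fun i => (q i).elim (w (y i)) Subtype.val) = v := by
        funext i
        by_cases h : v i ∈ Set.range w
        · show (q i).elim (w (y i)) Subtype.val = v i
          rw [hq1 i h]
          exact hy i h
        · show (q i).elim (w (y i)) Subtype.val = v i
          rw [hq2 i h]
          rfl
      have e2 : (fun i => (q i).elim (w (γ (y i))) Subtype.val) = σ ∘ v := by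
        funext i
        show (q i).elim (w (γ (y i))) Subtype.val = σ (v i)
        by_cases h : v i ∈ Set.range w
        · rw [hq1 i h]
          show w (γ (y i)) = σ (v i)
          rw [← h1, hy i h]
        · rw [hq2 i h, h2 (v i) (fun x hx => h ⟨x, hx⟩)]
          rfl
      have h3 := hγ' ⟨s, q⟩ y
      have h4 : R s (fun i => (q i).elim (w (γ (y i))) Subtype.val) ↔ R s (fun i => (q i).elim (w (y i)) Subtype.val) := h3
      rw [e1, e2] at h4
      exact h4
    · have h3 : σ = 1 := by
        ext z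
        exact h2 z (fun x => absurd ⟨x⟩ hW)
      rw [h3]
      exact Iff.rfl
  · intro hγ
    show Au (Rel R w) γ
    obtain ⟨σ, h1, h2⟩ := exists_ext hw γ
    have h3 : Au R σ := mem_res.1 hγ σ h1 h2
    rintro ⟨s, p⟩ y
    have h4 := h3 s (fun i => (p i).elim (w (y i)) Subtype.val)
    show R s (fun i => (p i).elim (w (γ (y i))) Subtype.val) ↔ R s (fun i => (p i).elim (w (y i)) Subtype.val)
    have e : (fun i => (p i).elim (w (γ (y i))) Subtype.val) = σ ∘ (fun i => (p i).elim (w (y i)) Subtype.val) := by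
      funext i
      show (p i).elim (w (γ (y i))) Subtype.val = σ ((p i).elim (w (y i)) Subtype.val)
      rcases p i with _ | a
      · exact (h1 (y i)).symm
      · exact (h2 a.1 (fun x hx => a.2 ⟨x, hx⟩)).symm
    rw [e]
    exact h4

theorem NoBig_Rel {W : Type} {R : Interp S ar V} {c a e : ℕ} (h : NoBig R c a e) (w : W → V) (hw : Function.Injective w) :
    NoBig (Rel R w) c a e := by
  classical
  intro t O ht hF
  refine h t O ht ?_
  obtain ⟨u, Γ, hu, h1, h2, hO⟩ := hF
  have hG : ∀ γ : Equiv.Perm W, Au (Rel R w) γ → γ ∈ res (AuG R) w hw := by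
    intro γ hγ
    rw [← AuG_Rel R w hw]
    exact hγ
  refine ⟨fun p => w (u p), Γ, hw.comp hu, ?_, ?_, hO⟩
  · intro π σ h3 h4
    obtain ⟨γ, hγ1, hγ2⟩ := exists_ext hu (π.prodCongr (Equiv.refl (Fin t)))
    have h5 := hG γ (h1 π γ (fun i x => hγ1 (i, x)) hγ2)
    refine mem_res.1 h5 σ ?_ ?_
    · intro x
      by_cases hx : ∃ p, u p = x
      · obtain ⟨⟨i, y⟩, rfl⟩ := hx
        have h6 : γ (u (i, y)) = u (π i, y) := hγ1 (i, y)
        rw [h6]
        exact h3 i y
      · push Not at hx
        rw [hγ2 x hx]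
        exact h4 _ (fun p hp => hx p (hw hp))
    · intro z hz
      exact h4 z (fun p hp => hz _ hp)
  · intro γ₀ hγ₀ i σ h3 h4
    have hui : Function.Injective (fun x => u (i, x)) := fun x y hxy => (Prod.mk.injEq _ _ _ _ ▸ hu hxy : _ ∧ _).2
    obtain ⟨γ, hγ1, hγ2⟩ := exists_ext hui γ₀
    have h5 := hG γ (h2 γ₀ hγ₀ i γ hγ1 hγ2)
    refine mem_res.1 h5 σ ?_ ?_
    · intro x
      by_cases hx : ∃ y, u (i, y) = x
      · obtain ⟨y, rfl⟩ := hx
        have h6 : γ (u (i, y)) = u (i, γ₀ y) := hγ1 y
        rw [h6]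
        exact h3 y
      · push Not at hx
        rw [hγ2 x hx]
        exact h4 _ (fun p hp => hx p (hw hp))
    · intro z hz
      exact h4 z (fun x hx => hz _ hx)

open Classical in
/-- MS4c: orbits of the relative structure on the complement of `A` -/
theorem orb_Rel (R : Interp S ar V) (A : Finset V) (x : {v : V // v ∉ A}) :
    (orb (AuG (Rel R (fun x : {v : V // v ∉ A} => x.1))) x).card ≤ (oA R A x.1).card := by
  have hw : Function.Injective (fun x : {v : V // v ∉ A} => x.1) := Subtype.val_injective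
  refine Finset.card_le_card_of_injOn (fun y => y.1) ?_ (fun y _ y' _ h => Subtype.ext h)
  intro y hy
  obtain ⟨γ, hγ, hγx⟩ := mem_orb58.1 hy
  rw [AuG_Rel R _ hw] at hγ
  obtain ⟨σ, h1, h2⟩ := exists_ext hw γ
  have h3 : σ ∈ AuG R := mem_res.1 hγ σ h1 h2
  show y.1 ∈ oA R A x.1
  refine mem_orb58.2 ⟨σ, Subgroup.mem_inf.2 ⟨h3, ?_⟩, ?_⟩
  · intro z hz
    exact h2 z (fun y hy => y.2 (by rw [hy]; exact hz))
  · rw [← hγx]
    exact h1 x

end Pool.Agent.Helper38.MS
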